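import Pool.Agent.P.MP_d483fb_an.Z.Lie.Defs

/-!
Matrix lemmas for the polar decomposition: continuity of the logarithm and a perturbation bound
for the orthogonal factor that does not depend on the positive factor.
-/

open scoped Matrix Topology
open NormedSpace Filter Set

namespace Pool.Agent.P.MP_d483fb_an.Z.Cen

variable {n : ℕ}

section
open scoped Matrix.Norms.L2Operator

/-- The logarithm of a positive matrix. -/
noncomputable def slog (X : Mat n) : Mat n := CFC.log X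

theorem log_exp {P : Mat n} (hP : P.IsSymm) : slog (exp P) = P :=
  CFC.log_exp P (by
    rw [IsSelfAdjoint, Matrix.star_eq_conjTranspose, Matrix.conjTranspose_eq_transpose_of_trivial]
    exact hP)

theorem continuousOn_log : ContinuousOn slog {a : Mat n | a.IsSymm ∧ IsUnit a} := by
  refine (CFC.continuousOn_log (A := Mat n)).mono fun a ha => ⟨?_, ha.2⟩
  rw [IsSelfAdjoint, Matrix.star_eq_conjTranspose, Matrix.conjTranspose_eq_transpose_of_trivial]
  exact ha.1

end

/-- The square of the Frobenius norm. -/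
def fr (X : Mat n) : ℝ := (X * Xᵀ).trace

theorem fr_eq (X : Mat n) : fr X = ∑ i, ∑ j, X i j ^ 2 := by
  simp [fr, Matrix.trace, Matrix.mul_apply, sq]

theorem fr_nonneg (X : Mat n) : 0 ≤ fr X := by
  rw [fr_eq]
  positivity

theorem sq_le_fr (X : Mat n) (i j : Fin n) : X i j ^ 2 ≤ fr X := by
  rw [fr_eq]
  refine le_trans ?_ (Finset.single_le_sum (f := fun i => ∑ j, X i j ^ 2)
    (fun _ _ => by positivity) (Finset.mem_univ i))
  exact Finset.single_le_sum (f := fun j => X i j ^ 2) (fun _ _ => by positivity)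
    (Finset.mem_univ j)

theorem continuous_fr : Continuous (fr : Mat n → ℝ) := by
  unfold fr
  fun_prop

theorem fr_sub (X Y : Mat n) : fr (X - Y) = fr X + fr Y - 2 * (X * Yᵀ).trace := by
  have h : (Y * Xᵀ).trace = (X * Yᵀ).trace := by
    rw [← Matrix.trace_transpose, Matrix.transpose_mul, Matrix.transpose_transpose]
  simp only [fr, Matrix.transpose_sub, mul_sub, sub_mul, Matrix.trace_sub, h]
  ring

theorem fr_sub_le (X Y : Mat n) : fr (X - Y) ≤ 2 * fr X + 2 * fr Y := by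
  simp only [fr_eq, Finset.mul_sum, ← Finset.sum_add_distrib, Matrix.sub_apply]
  refine Finset.sum_le_sum fun i _ => Finset.sum_le_sum fun j _ => ?_
  nlinarith [sq_nonneg (X i j + Y i j)]

theorem fr_conj {k k' : Mat n} (hk : kᵀ * k = 1) (hk' : k' * k'ᵀ = 1) (X : Mat n) :
    fr (k * X * k') = fr X := by
  simp only [fr, Matrix.transpose_mul]
  rw [show k * X * k' * (k'ᵀ * (Xᵀ * kᵀ)) = k * (X * (k' * k'ᵀ) * Xᵀ * kᵀ) by
    simp only [mul_assoc], Matrix.trace_mul_comm, hk', mul_one, mul_assoc, hk, mul_one]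

theorem two_le_trace {s t s' t' : Mat n} (hs : s.IsSymm) (ht : t.IsSymm) (hs' : s'.IsSymm)
    (ht' : t'.IsSymm) (h : t * s = 1) (h' : s' * t' = 1) :
    2 * (n : ℝ) ≤ (s' * s' * (t * t)).trace + (s * s * (t' * t')).trace := by
  have e1 : fr (s' * t) = (s' * s' * (t * t)).trace := by
    rw [fr, Matrix.transpose_mul, ht.eq, hs'.eq,
      show s' * t * (t * s') = s' * (t * t) * s' by simp only [mul_assoc],
      Matrix.trace_mul_comm, mul_assoc]
  have e2 : fr (t' * s) = (s * s * (t' * t')).trace := by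
    rw [fr, Matrix.transpose_mul, ht'.eq, hs.eq,
      show t' * s * (s * t') = t' * (s * s * t') by simp only [mul_assoc],
      Matrix.trace_mul_comm, mul_assoc]
  have e3 : (s' * t * (t' * s)ᵀ).trace = n := by
    rw [Matrix.transpose_mul, ht'.eq, hs.eq,
      show s' * t * (s * t') = s' * (t * s) * t' by simp only [mul_assoc], h, mul_one, h']
    simp
  have := fr_nonneg (s' * t - t' * s)
  rw [fr_sub, e1, e2, e3] at this
  linarith

theorem exp_symm {P : Mat n} (hP : P.IsSymm) (c : ℝ) : (exp (c • P)).IsSymm :=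
  (hP.smul c).exp

theorem exp_mul (P : Mat n) (c d : ℝ) : exp (c • P) * exp (d • P) = exp ((c + d) • P) := by
  rw [add_smul, Matrix.exp_add_of_commute]
  exact ((Commute.refl P).smul_left c).smul_right d

/-- The orthogonal factor of the polar decomposition moves little under left multiplication. -/
theorem fr_polar {u v k k' P P' : Mat n} (huv : u * v = 1) (hk : k * kᵀ = 1) (hk' : k' * k'ᵀ = 1)
    (hP : P.IsSymm) (hP' : P'.IsSymm) (h : u * (k * exp P) = k' * exp P') :
    fr (k' * kᵀ - 1) ≤ 2 * fr (u - 1) + 2 * (fr u + fr v - 2 * n) := by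
  have hk2 : kᵀ * k = 1 := mul_eq_one_comm.mp hk
  have hk2' : k'ᵀ * k' = 1 := mul_eq_one_comm.mp hk'
  have hvu : v * u = 1 := mul_eq_one_comm.mp huv
  have e0 : ∀ (Q : Mat n) (c : ℝ), exp (c • Q) * exp ((-c) • Q) = 1 := fun Q c => by
    rw [exp_mul]
    simp
  have e1 : ∀ Q : Mat n, exp ((1 / 2 : ℝ) • Q) * exp ((1 / 2 : ℝ) • Q) = exp ((1 : ℝ) • Q) :=
    fun Q => by rw [exp_mul, add_halves]
  have e2 : ∀ Q : Mat n,
      exp ((-(1 / 2) : ℝ) • Q) * exp ((-(1 / 2) : ℝ) • Q) = exp ((-1 : ℝ) • Q) := fun Q => by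
    rw [exp_mul]
    norm_num
  have key := two_le_trace (exp_symm hP (1 / 2)) (exp_symm hP (-(1 / 2))) (exp_symm hP' (1 / 2))
    (exp_symm hP' (-(1 / 2))) (mul_eq_one_comm.mp (e0 P _)) (e0 P' _)
  rw [e1, e1, e2, e2] at key
  rw [← one_smul ℝ P, ← one_smul ℝ P'] at h
  have w1 : exp ((1 : ℝ) • P') * exp ((-1 : ℝ) • P) = k'ᵀ * u * k := by
    rw [← one_mul (exp ((1 : ℝ) • P')), ← hk2', mul_assoc k'ᵀ, ← h]
    simp only [mul_assoc, e0, mul_one]
  have w2 : exp ((1 : ℝ) • P) * exp ((-1 : ℝ) • P') = kᵀ * v * k' := by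
    rw [← mul_one (kᵀ * v * k'), ← e0 P' 1, ← mul_assoc, mul_assoc _ k', ← h]
    simp only [← mul_assoc]
    rw [mul_assoc kᵀ v u, hvu, mul_one, hk2, one_mul]
  rw [w1, w2] at key
  have f1 := fr_sub (k'ᵀ * u * k) 1
  have f2 := fr_sub (kᵀ * v * k') 1
  have f3 : fr (1 : Mat n) = n := by simp [fr]
  rw [fr_conj (by rwa [Matrix.transpose_transpose]) hk, f3, Matrix.transpose_one, mul_one] at f1
  rw [fr_conj (by rwa [Matrix.transpose_transpose]) hk', f3, Matrix.transpose_one, mul_one] at f2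
  have f4 : k' * kᵀ - 1 = (u - 1) - k' * (k'ᵀ * u * k - 1) * kᵀ := by
    rw [mul_sub, sub_mul, ← mul_assoc, ← mul_assoc, hk', one_mul, mul_assoc u, hk]
    simp
  have f5 := fr_sub_le (u - 1) (k' * (k'ᵀ * u * k - 1) * kᵀ)
  rw [fr_conj hk2' (by rwa [Matrix.transpose_transpose]), ← f4] at f5
  linarith [fr_nonneg (kᵀ * v * k' - 1)]

theorem fr_nhds {N : Set (Mat n)} (hN : N ∈ 𝓝 (1 : Mat n)) :
    ∃ δ : ℝ, 0 < δ ∧ ∀ X : Mat n, fr (X - 1) < δ → X ∈ N := by
  obtain ⟨ε, hε, h⟩ := (Metric.mem_nhds_iff (α := Fin n → Fin n → ℝ)).mp hN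
  refine ⟨ε ^ 2, by positivity, fun X hX => h ?_⟩
  rw [Metric.mem_ball, dist_pi_lt_iff hε]
  intro i
  rw [dist_pi_lt_iff hε]
  intro j
  rw [Real.dist_eq]
  exact abs_lt_of_sq_lt_sq ((sq_le_fr (X - 1) i j).trans_lt hX) hε.le

end Pool.Agent.P.MP_d483fb_an.Z.Cen
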