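import Pool.Agent.P.MP_d483fb_an.Z.Cen.Frob

/-!
The kernel of the covering homomorphism is discrete and central, and the preimage of the orthogonal
group is compact modulo the kernel.
-/

open scoped Matrix Topology Pointwise
open NormedSpace Filter Set

namespace Pool.Agent.P.MP_d483fb_an.Z

variable {G : Type} [Group G] [TopologicalSpace G] [IsTopologicalGroup G] {n k : ℕ}

namespace ExpData

variable (D : ExpData G n)

omit [IsTopologicalGroup G] in
theorem cen_rho_mul_inv (x : G) : D.ρ x * D.ρ x⁻¹ = 1 := by rw [← map_mul, mul_inv_cancel, map_one]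

omit [IsTopologicalGroup G] in
theorem cen_rho_inv_mul (x : G) : D.ρ x⁻¹ * D.ρ x = 1 := by rw [← map_mul, inv_mul_cancel, map_one]

/-- `ρ` is injective on a neighbourhood of the identity. -/
theorem cen_exists_inj : ∃ O : Set G, IsOpen O ∧ (1 : G) ∈ O ∧
    ∀ x ∈ O, ∀ y ∈ O, D.ρ x = D.ρ y → x = y := by
  obtain ⟨V, hV, hVU⟩ := exists_nhds_split_inv D.disc
  refine ⟨interior V, isOpen_interior, mem_interior_iff_mem_nhds.mpr hV, fun x hx y hy h => ?_⟩
  have h1 := hVU x (interior_subset hx) y (interior_subset hy)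
  rw [mem_ofPred_eq, div_eq_mul_inv, map_mul, h, D.cen_rho_mul_inv] at h1
  exact mul_inv_eq_one.mp (h1 rfl)

theorem cen_ker_central [PreconnectedSpace G] {z : G} (hz : D.ρ z = 1) (g : G) : z * g = g * z := by
  have hc : Continuous fun g : G => g * z * g⁻¹ * z⁻¹ := by fun_prop
  have hk : ∀ g : G, D.ρ (g * z * g⁻¹ * z⁻¹) = 1 := fun g => by
    have h1 : D.ρ z⁻¹ = 1 := by rw [← D.cen_rho_inv_mul z, hz, mul_one]
    rw [map_mul, map_mul, map_mul, hz, h1, mul_one, mul_one, D.cen_rho_mul_inv]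
  have hl : IsLocallyConstant fun g : G => g * z * g⁻¹ * z⁻¹ := by
    rw [IsLocallyConstant.iff_eventually_eq]
    intro x
    have h1 : Tendsto (fun g : G => (g * z * g⁻¹ * z⁻¹) * (x * z * x⁻¹ * z⁻¹)⁻¹) (𝓝 x) (𝓝 1) := by
      have := (hc.tendsto x).mul_const (x * z * x⁻¹ * z⁻¹)⁻¹
      rwa [mul_inv_cancel] at this
    filter_upwards [h1.eventually D.disc] with g hg
    refine mul_inv_eq_one.mp (hg ?_)
    have h2 := D.cen_rho_inv_mul (x * z * x⁻¹ * z⁻¹)
    rw [hk, mul_one] at h2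
    rw [map_mul, hk, h2, mul_one]
  have h := hl.apply_eq_of_preconnectedSpace g 1
  simp only [one_mul, inv_one, mul_one, mul_inv_cancel] at h
  rw [mul_inv_eq_one, mul_inv_eq_iff_eq_mul] at h
  exact h.symm

theorem cen_ker_finite {C : Set G} (hC : IsCompact C) : {z | z ∈ C ∧ D.ρ z = 1}.Finite := by
  obtain ⟨O, hO, h1, hinj⟩ := D.cen_exists_inj
  obtain ⟨t, ht⟩ := hC.elim_finite_subcover (fun x : G => (fun y => x⁻¹ * y) ⁻¹' O)
    (fun x => hO.preimage (by fun_prop)) (fun x _ => mem_iUnion.mpr ⟨x, by simpa using h1⟩)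
  refine (t.finite_toSet.biUnion (t := fun x => {z | x⁻¹ * z ∈ O ∧ D.ρ z = 1})
    fun x _ => Set.Subsingleton.finite ?_).subset fun z hz => ?_
  · intro y hy y' hy'
    have := hinj _ hy.1 _ hy'.1 (by rw [map_mul, map_mul, hy.2, hy'.2])
    exact mul_left_cancel this
  · obtain ⟨x, hx, hzx⟩ := mem_iUnion₂.mp (ht hz.1)
    exact mem_iUnion₂.mpr ⟨x, hx, hzx, hz.2⟩

end ExpData

namespace Std

variable (D : Std G n k)

omit [IsTopologicalGroup G] in
theorem cen_isClosed_K : IsClosed (D.K : Set G) :=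
  isClosed_eq (f := fun x => D.ρ x * (D.ρ x)ᵀ) (D.cont.mul D.cont.matrix_transpose)
    continuous_const

omit [IsTopologicalGroup G] in
theorem cen_ker_le_K {z : G} (hz : D.ρ z = 1) : z ∈ D.K := by
  rw [mem_K, hz]
  simp

theorem cen_image_mem_nhds {x : G} {N : Set G} (hN : N ∈ 𝓝 x) :
    D.ρ '' N ∈ 𝓝[range D.ρ] (D.ρ x) := by
  have h1 : (fun y => x * y) ⁻¹' N ∈ 𝓝 (1 : G) :=
    (continuous_const.mul continuous_id).continuousAt.preimage_mem_nhds (by simpa using hN)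
  have h2 : D.ρ '' ((fun y => x * y) ⁻¹' N) ∈ 𝓝[range D.ρ] 1 := D.opn ▸ image_mem_map h1
  have h3 : Tendsto (fun Y : Mat n => D.ρ x⁻¹ * Y) (𝓝[range D.ρ] (D.ρ x)) (𝓝[range D.ρ] 1) := by
    refine tendsto_nhdsWithin_iff.mpr ⟨?_, ?_⟩
    · rw [← D.cen_rho_inv_mul x]
      exact ((continuous_const.mul continuous_id).tendsto _).mono_left nhdsWithin_le_nhds
    · filter_upwards [self_mem_nhdsWithin]
      rintro _ ⟨y, rfl⟩
      exact ⟨x⁻¹ * y, map_mul _ _ _⟩
  filter_upwards [h3.eventually h2]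
  rintro Y ⟨y, hy, hY⟩
  refine ⟨x * y, hy, ?_⟩
  rw [map_mul, hY, ← mul_assoc, D.cen_rho_mul_inv, one_mul]

omit [IsTopologicalGroup G] in
theorem cen_isCompact_image_K : IsCompact (D.ρ '' D.K) := by
  have h1 : IsCompact (Set.pi univ fun _ : Fin n => Set.pi univ fun _ : Fin n => Icc (-1 : ℝ) 1) :=
    isCompact_univ_pi fun _ => isCompact_univ_pi fun _ => isCompact_Icc
  have h2 : D.ρ '' D.K = range D.ρ ∩ {X | X * Xᵀ = 1} := by
    ext X
    constructor
    · rintro ⟨x, hx, rfl⟩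
      exact ⟨⟨x, rfl⟩, hx⟩
    · rintro ⟨⟨x, rfl⟩, hx⟩
      exact ⟨x, hx, rfl⟩
  refine IsCompact.of_isClosed_subset (X := Mat n) h1 ?_ ?_
  · rw [h2]
    exact D.closed.inter (isClosed_eq (continuous_id.mul continuous_id.matrix_transpose)
      continuous_const)
  · rintro _ ⟨x, hx, rfl⟩ i - j -
    have h3 := congrFun (congrFun (D.mem_K.mp hx) i) i
    simp only [Matrix.mul_apply, Matrix.transpose_apply, Matrix.one_apply_eq] at h3
    have h4 := Finset.single_le_sum (f := fun j => D.ρ x i j * D.ρ x i j)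
      (fun _ _ => mul_self_nonneg _) (Finset.mem_univ j)
    rw [h3] at h4
    exact abs_le.mp (abs_le_one_iff_mul_self_le_one.mpr h4)

/-- `K` is compact modulo the kernel. -/
theorem cen_exists_K1 [LocallyCompactSpace G] : ∃ K1 : Set G, IsCompact K1 ∧ (1 : G) ∈ K1 ∧
    K1 ⊆ D.K ∧ ∀ x ∈ D.K, ∃ z, D.ρ z = 1 ∧ ∃ y ∈ K1, x = z * y := by
  have key : ∃ C : Set G, IsCompact C ∧ D.ρ '' D.K ⊆ D.ρ '' C := by
    refine D.cen_isCompact_image_K.induction_on (p := fun s => ∃ C : Set G, IsCompact C ∧ s ⊆ D.ρ '' C)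
      ⟨∅, isCompact_empty, empty_subset _⟩ (fun s t hst ⟨C, hC, h⟩ => ⟨C, hC, hst.trans h⟩)
      (fun s t ⟨C, hC, h⟩ ⟨C', hC', h'⟩ => ⟨C ∪ C', hC.union hC', ?_⟩) ?_
    · rw [image_union]
      exact union_subset_union h h'
    · rintro _ ⟨x, -, rfl⟩
      obtain ⟨N, hN, hx⟩ := exists_compact_mem_nhds x
      exact ⟨_, nhdsWithin_mono _ (image_subset_range _ _) (D.cen_image_mem_nhds hx), N, hN,
        subset_rfl⟩
  obtain ⟨C, hC, h⟩ := key
  refine ⟨insert 1 (C ∩ D.K), (hC.inter_right D.cen_isClosed_K).insert 1, mem_insert _ _, ?_,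
    fun x hx => ?_⟩
  · rintro x (rfl | hx)
    · exact D.K.one_mem
    · exact hx.2
  · obtain ⟨y, hy, hxy⟩ := h ⟨x, hx, rfl⟩
    refine ⟨x * y⁻¹, by rw [map_mul, ← hxy, D.cen_rho_mul_inv], y, mem_insert_of_mem _ ⟨hy, ?_⟩,
      by simp⟩
    rw [SetLike.mem_coe, mem_K, hxy]
    exact hx

end Std

end Pool.Agent.P.MP_d483fb_an.Z
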