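import Pool.Agent.P.MP_d483fb_an.Z.Cen.Ker
import Pool.Agent.P.MP_d483fb_an.Z.Path.Defs

/-!
The kernel of the covering homomorphism is finitely generated and undistorted.
-/

open scoped Matrix Topology Pointwise
open NormedSpace Filter Set

noncomputable section

namespace Pool.Agent.P.MP_d483fb_an.Z

variable {G : Type} [Group G] [TopologicalSpace G] [IsTopologicalGroup G] {n k : ℕ}

namespace Std

variable (D : Std G n k)

/-- Existence of polar decompositions. -/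
def CenPolar : Prop := ∀ g, ∃ κ ∈ D.K, ∃ P ∈ D.g, P.IsSymm ∧ g = κ * D.ex P

/-- The symmetric part of the polar decomposition. -/
def cenP (g : G) : Mat n := (1 / 2 : ℝ) • Cen.slog ((D.ρ g)ᵀ * D.ρ g)

/-- The orthogonal part of the polar decomposition. -/
def cenK (g : G) : G := g * (D.ex (D.cenP g))⁻¹

variable {D}

omit [IsTopologicalGroup G] in
theorem cenP_eq {κ : G} (hκ : κ ∈ D.K) {P : Mat n} (hP : P ∈ D.g) (hs : P.IsSymm) :
    D.cenP (κ * D.ex P) = P := by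
  have h1 : (D.ρ κ)ᵀ * D.ρ κ = 1 := mul_eq_one_comm.mp hκ
  have h2 := Cen.exp_mul P 1 1
  rw [one_smul] at h2
  rw [cenP, map_mul, D.ρ_ex P hP, Matrix.transpose_mul, hs.exp.eq, mul_assoc, ← mul_assoc _ (D.ρ κ),
    h1, one_mul, h2, Cen.log_exp (hs.smul _), smul_smul]
  norm_num

omit [IsTopologicalGroup G] in
theorem cenK_eq {κ : G} (hκ : κ ∈ D.K) : D.cenK κ = κ := by
  have h := cenP_eq hκ D.g.zero_mem Matrix.isSymm_zero
  rw [D.ex_zero, mul_one] at h
  rw [cenK, h, D.ex_zero, inv_one, mul_one]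

omit [IsTopologicalGroup G] in
theorem CenPolar.spec (h : D.CenPolar) (g : G) :
    D.cenK g ∈ D.K ∧ D.cenP g ∈ D.g ∧ (D.cenP g).IsSymm ∧
      D.ρ g = D.ρ (D.cenK g) * exp (D.cenP g) := by
  obtain ⟨κ, hκ, P, hP, hs, rfl⟩ := h g
  rw [cenK, cenP_eq hκ hP hs, mul_inv_cancel_right]
  exact ⟨hκ, hP, hs, by rw [map_mul, D.ρ_ex P hP]⟩

theorem CenPolar.continuous (h : D.CenPolar) : Continuous D.cenK := by
  have h1 : Continuous D.cenP := by
    refine Continuous.const_smul (Cen.continuousOn_log.comp_continuous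
      (D.cont.matrix_transpose.mul D.cont) fun g => ⟨Matrix.isSymm_transpose_mul_self _, ?_⟩)
      (1 / 2 : ℝ)
    have h2 : IsUnit (D.ρ g) := (Group.isUnit g).map D.ρ
    exact ((Matrix.isUnit_transpose _).mpr h2).mul h2
  exact continuous_id.mul (D.ex_cont.comp_continuous h1 fun g => (h.spec g).2.1).inv

/-- The orthogonal part moves by a bounded amount under small left multiplications. -/
theorem CenPolar.local [PreconnectedSpace G] [LocallyCompactSpace G] (h : D.CenPolar) :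
    ∃ Q : Set G, IsCompact Q ∧ ∀ᶠ u in 𝓝 (1 : G), ∀ g, D.cenK (u * g) * (D.cenK g)⁻¹ ∈ Q := by
  obtain ⟨O, hO, hO1, hinj⟩ := D.cen_exists_inj
  have : T2Space G := IsTopologicalGroup.t2Space_of_one_sep fun x hx => by
    by_cases hxO : x ∈ O
    · refine ⟨{y | D.ρ y ≠ D.ρ x}, (isOpen_ne_fun D.cont continuous_const).mem_nhds
        (fun e => hx (hinj _ hO1 _ hxO e).symm), by simp⟩
    · exact ⟨O, hO.mem_nhds hO1, hxO⟩
  obtain ⟨Q, hQ1, hQO, hQ⟩ := local_compact_nhds (hO.mem_nhds hO1)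
  have h1 := D.cen_image_mem_nhds hQ1
  rw [map_one] at h1
  obtain ⟨N, hN, hNQ⟩ := mem_nhdsWithin_iff_exists_mem_nhds_inter.mp h1
  obtain ⟨δ, hδ, hδN⟩ := Cen.fr_nhds hN
  have h2 : Continuous fun u : G =>
      2 * Cen.fr (D.ρ u - 1) + 2 * (Cen.fr (D.ρ u) + Cen.fr (D.ρ u⁻¹) - 2 * n) :=
    (continuous_const.mul (Cen.continuous_fr.comp (D.cont.sub continuous_const))).add
      (continuous_const.mul (((Cen.continuous_fr.comp D.cont).add
        (Cen.continuous_fr.comp (D.cont.comp continuous_inv))).sub continuous_const))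
  have h3 : ∀ᶠ u in 𝓝 (1 : G),
      2 * Cen.fr (D.ρ u - 1) + 2 * (Cen.fr (D.ρ u) + Cen.fr (D.ρ u⁻¹) - 2 * n) < δ :=
    (h2.tendsto 1).eventually_lt_const (by simpa [Cen.fr, two_mul] using hδ)
  have h4 : ∀ᶠ u in 𝓝 (1 : G), D.cenK u ∈ Q :=
    h.continuous.continuousAt.preimage_mem_nhds (by rwa [cenK_eq D.K.one_mem])
  refine ⟨Q, hQ, ?_⟩
  filter_upwards [h3, h4] with u hu hu'
  have hc : Continuous fun g => D.cenK (u * g) * (D.cenK g)⁻¹ :=
    (h.continuous.comp (continuous_const.mul continuous_id)).mul h.continuous.inv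
  have h5 : ∀ g, D.cenK (u * g) * (D.cenK g)⁻¹ ∈ O → D.cenK (u * g) * (D.cenK g)⁻¹ ∈ Q := by
    intro g hg
    obtain ⟨a1, -, a3, a4⟩ := h.spec g
    obtain ⟨b1, -, b3, b4⟩ := h.spec (u * g)
    have e1 : D.ρ (D.cenK g)⁻¹ = (D.ρ (D.cenK g))ᵀ := by
      rw [← mul_one (D.ρ (D.cenK g)⁻¹), ← D.mem_K.mp a1, ← mul_assoc, D.cen_rho_inv_mul, one_mul]
    have e2 := Cen.fr_polar (D.cen_rho_mul_inv u) a1 b1 a3 b3 (by rw [← a4, ← b4, map_mul])
    rw [← e1, ← map_mul] at e2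
    obtain ⟨q, hq, e3⟩ := hNQ ⟨hδN _ (e2.trans_lt hu), mem_range_self _⟩
    rwa [← hinj _ (hQO hq) _ hg e3]
  have h6 : IsClopen {g | D.cenK (u * g) * (D.cenK g)⁻¹ ∈ Q} := by
    refine ⟨hQ.isClosed.preimage hc, ?_⟩
    have : {g | D.cenK (u * g) * (D.cenK g)⁻¹ ∈ Q} = {g | D.cenK (u * g) * (D.cenK g)⁻¹ ∈ O} :=
      Set.ext fun g => ⟨fun hg => hQO hg, h5 g⟩
    rw [this]
    exact hO.preimage hc
  have h7 := h6.eq_univ ⟨1, by simpa [cenK_eq D.K.one_mem] using hu'⟩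
  exact fun g => (h7.ge (mem_univ g) :)

theorem CenPolar.bounded [PreconnectedSpace G] [LocallyCompactSpace G] (h : D.CenPolar) {C : Set G}
    (hC : IsCompact C) :
    ∃ Q : Set G, IsCompact Q ∧ ∀ u ∈ C, ∀ g, D.cenK (u * g) * (D.cenK g)⁻¹ ∈ Q := by
  obtain ⟨Q, hQ, hV⟩ := h.local
  have hmul : ∀ u u' g, D.cenK (u * u' * g) * (D.cenK g)⁻¹ =
      D.cenK (u * (u' * g)) * (D.cenK (u' * g))⁻¹ * (D.cenK (u' * g) * (D.cenK g)⁻¹) :=
    fun u u' g => by simp [mul_assoc]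
  let H : Subgroup G :=
    { carrier := {u | ∃ R : Set G, IsCompact R ∧ ∀ g, D.cenK (u * g) * (D.cenK g)⁻¹ ∈ R}
      one_mem' := ⟨{1}, isCompact_singleton, by simp⟩
      mul_mem' := by
        rintro u u' ⟨R, hR, h1⟩ ⟨R', hR', h2⟩
        exact ⟨R * R', hR.mul hR', fun g => hmul u u' g ▸ mul_mem_mul (h1 _) (h2 _)⟩
      inv_mem' := by
        rintro u ⟨R, hR, h1⟩
        refine ⟨R⁻¹, hR.inv, fun g => ?_⟩
        simpa using h1 (u⁻¹ * g) }
  have hHo : IsOpen (H : Set G) :=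
    H.isOpen_of_mem_nhds (g := 1) (mem_of_superset hV fun u hu => ⟨Q, hQ, hu⟩)
  have hH : (H : Set G) = univ := IsClopen.eq_univ ⟨H.isClosed_of_isOpen hHo, hHo⟩ ⟨1, H.one_mem⟩
  refine hC.induction_on (p := fun s => ∃ Q : Set G, IsCompact Q ∧
    ∀ u ∈ s, ∀ g, D.cenK (u * g) * (D.cenK g)⁻¹ ∈ Q) ⟨∅, isCompact_empty, by simp⟩
    (fun s t hst ⟨R, hR, h1⟩ => ⟨R, hR, fun u hu => h1 u (hst hu)⟩)
    (fun s t ⟨R, hR, h1⟩ ⟨R', hR', h2⟩ => ⟨R ∪ R', hR.union hR', fun u hu g =>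
      hu.elim (fun hu => Or.inl (h1 u hu g)) fun hu => Or.inr (h2 u hu g)⟩) fun x _ => ?_
  obtain ⟨R, hR, h1⟩ : x ∈ (H : Set G) := hH ▸ mem_univ x
  have h2 : Tendsto (fun u : G => u * x⁻¹) (𝓝 x) (𝓝 1) := by
    have := (tendsto_id (x := 𝓝 x)).mul_const x⁻¹
    rwa [mul_inv_cancel] at this
  refine ⟨_, mem_nhdsWithin_of_mem_nhds (h2.eventually hV), Q * R, hQ.mul hR, fun u hu g => ?_⟩
  have h3 := hmul (u * x⁻¹) x g
  rw [inv_mul_cancel_right] at h3
  rw [h3]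
  exact mul_mem_mul (hu _) (h1 _)

end Std

omit [TopologicalSpace G] [IsTopologicalGroup G] in
theorem Cen.prod_update [DecidableEq G] {L : List G} (hL : L.Nodup)
    (hc : ∀ t ∈ L, ∀ g, t * g = g * t) {t : G} (ht : t ∈ L) (m : G → ℕ) :
    (L.map fun s => s ^ Function.update m t (m t + 1) s).prod = t * (L.map fun s => s ^ m s).prod := by
  induction L with
  | nil => simp at ht
  | cons a L ih =>
    rw [List.nodup_cons] at hL
    simp only [List.map_cons, List.prod_cons]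
    rcases List.mem_cons.mp ht with rfl | ht'
    · rw [Function.update_self, pow_succ', mul_assoc, List.map_congr_left]
      intro s hs
      rw [Function.update_of_ne (ne_of_mem_of_not_mem hs hL.1)]
    · rw [ih hL.2 (fun s hs => hc s (List.mem_cons_of_mem _ hs)) ht',
        Function.update_of_ne (ne_of_mem_of_not_mem ht' hL.1).symm, ← mul_assoc, ← mul_assoc, hc t ht]

/-- Every element of the kernel is a product of powers of finitely many fixed elements of the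
kernel, with exponents at most linear in the length. -/
theorem Std.CenPolar.undist [PreconnectedSpace G] [LocallyCompactSpace G] {D : Std G n k}
    (h : D.CenPolar) (l : Len G) : ∃ L : List G, (∀ t ∈ L, D.ρ t = 1) ∧ ∀ z, D.ρ z = 1 →
      ∃ m : G → ℕ, (∀ t, m t ≤ l.len z + 2) ∧ z = (L.map fun t => t ^ m t).prod := by
  classical
  obtain ⟨K1, hK1, h1, hK, hdec⟩ := D.cen_exists_K1
  obtain ⟨Q, hQ, hQb⟩ := h.bounded (l.cpt 1)
  have hF := D.cen_ker_finite (((hQ.insert 1).mul hK1).mul hK1.inv)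
  have hL : ∀ t, t ∈ hF.toFinset.toList ↔ t ∈ insert 1 Q * K1 * K1⁻¹ ∧ D.ρ t = 1 := by simp
  set L := hF.toFinset.toList
  have hk : ∀ m : G → ℕ, D.ρ (L.map fun t => t ^ m t).prod = 1 := fun m => by
    rw [map_list_prod]
    refine List.prod_eq_one fun x hx => ?_
    simp only [List.map_map, List.mem_map, Function.comp] at hx
    obtain ⟨t, ht, rfl⟩ := hx
    rw [map_pow, ((hL t).mp ht).2, one_pow]
  have hup : ∀ (N : ℕ) (m : G → ℕ), (∀ t, m t ≤ N) → ∀ t ∈ L, ∃ m' : G → ℕ, (∀ s, m' s ≤ N + 1) ∧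
      (L.map fun s => s ^ m' s).prod = t * (L.map fun s => s ^ m s).prod := fun N m hm t ht => by
    refine ⟨_, fun s => ?_, Cen.prod_update (Finset.nodup_toList _)
      (fun s hs => D.cen_ker_central ((hL s).mp hs).2) ht m⟩
    by_cases e : s = t
    · rw [e, Function.update_self]
      exact Nat.succ_le_succ (hm t)
    · rw [Function.update_of_ne e]
      exact (hm s).trans (Nat.le_succ _)
  have hstep : ∀ (N : ℕ) (u g : G), l.len u ≤ 1 →
      (∃ m : G → ℕ, (∀ t, m t ≤ N) ∧ ∃ y ∈ K1, D.cenK g = (L.map fun t => t ^ m t).prod * y) →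
      ∃ m : G → ℕ, (∀ t, m t ≤ N + 1) ∧ ∃ y ∈ K1,
        D.cenK (u * g) = (L.map fun t => t ^ m t).prod * y := by
    rintro N u g hu ⟨m, hm, y, hy, e⟩
    have hw := hQb u hu g
    have hwK : D.cenK (u * g) * (D.cenK g)⁻¹ * y ∈ D.K :=
      D.K.mul_mem (D.K.mul_mem (h.spec _).1 (D.K.inv_mem (h.spec _).1)) (hK hy)
    obtain ⟨z, hz, y', hy', e'⟩ := hdec _ hwK
    have hzL : z ∈ L := (hL z).mpr ⟨by
      rw [eq_mul_inv_of_mul_eq e'.symm]
      exact mul_mem_mul (mul_mem_mul (mem_insert_of_mem _ hw) hy) (inv_mem_inv.mpr hy'), hz⟩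
    obtain ⟨m', hm', e2⟩ := hup N m hm z hzL
    refine ⟨m', hm', y', hy', ?_⟩
    rw [e2, D.cen_ker_central hz, mul_assoc, ← e', D.cen_ker_central (hk m), mul_assoc,
      ← D.cen_ker_central (hk m), ← e, inv_mul_cancel_right]
  have hone : ∃ m : G → ℕ, (∀ t, m t ≤ 0) ∧ ∃ y ∈ K1,
      D.cenK 1 = (L.map fun t => t ^ m t).prod * y :=
    ⟨fun _ => 0, fun _ => le_rfl, 1, h1, by simp [Std.cenK_eq D.K.one_mem]⟩
  have hall : ∀ (N : ℕ) (g : G), l.len g ≤ N → ∃ m : G → ℕ, (∀ t, m t ≤ N + 1) ∧ ∃ y ∈ K1,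
      D.cenK g = (L.map fun t => t ^ m t).prod * y := by
    intro N
    induction N with
    | zero => exact fun g hg => by simpa using hstep 0 g 1 (hg.trans zero_le_one) hone
    | succ N ih =>
      intro g hg
      obtain ⟨u, g', hu, hg', rfl⟩ := l.step g N hg
      exact hstep _ u g' hu (ih g' hg')
  refine ⟨L, fun t ht => ((hL t).mp ht).2, fun z hz => ?_⟩
  obtain ⟨m, hm, y, hy, e⟩ := hall _ z le_rfl
  rw [Std.cenK_eq (D.cen_ker_le_K hz)] at e
  have hyk : D.ρ y = 1 := by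
    have := congrArg D.ρ e
    rwa [map_mul, hk, hz, one_mul, eq_comm] at this
  obtain ⟨m', hm', e2⟩ := hup _ m hm y ((hL y).mpr ⟨by
    simpa using mul_mem_mul (mul_mem_mul (mem_insert 1 Q) hy) (inv_mem_inv.mpr h1), hyk⟩)
  exact ⟨m', hm', by rw [e2, D.cen_ker_central hyk, ← e]⟩

end Pool.Agent.P.MP_d483fb_an.Z
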