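import Pool.Agent.P.MP_d483fb_an.Z.Cen.Undist

/-!
The kernel is undistorted: word form.
-/

open Set

namespace Pool.Agent.P.MP_d483fb_an.Z

variable {G : Type} [Group G] [TopologicalSpace G] [IsTopologicalGroup G] {n k : ℕ}

omit [TopologicalSpace G] [IsTopologicalGroup G] in
theorem Cen.exists_word (L : List G) (m : G → ℕ) {N : ℕ} (hm : ∀ t, m t ≤ N) :
    ∃ W : List G, (∀ t ∈ W, t ∈ L) ∧ W.length ≤ L.length * N ∧
      (L.map fun t => t ^ m t).prod = W.prod := by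
  induction L with
  | nil => exact ⟨[], by simp, by simp, by simp⟩
  | cons a L ih =>
    obtain ⟨W, h1, h2, h3⟩ := ih
    refine ⟨List.replicate (m a) a ++ W, fun t ht => ?_, ?_, by simp [h3]⟩
    · rcases List.mem_append.mp ht with ht | ht
      · simp [List.eq_of_mem_replicate ht]
      · exact List.mem_cons_of_mem _ (h1 t ht)
    · have := hm a
      simp only [List.length_append, List.length_replicate, List.length_cons, add_mul]
      omega

theorem Std.CenPolar.cen1 [ConnectedSpace G] [LocallyCompactSpace G] {D : Std G n k}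
    (h : D.CenPolar) (l : Len G) :
    (∃ K1 : Set G, IsCompact K1 ∧ ∀ x ∈ D.K, ∃ z y, D.ρ z = 1 ∧ y ∈ K1 ∧ x = z * y) ∧
      ∃ (T : Finset G) (C : ℕ), (∀ t ∈ T, D.ρ t = 1) ∧ ∀ z, D.ρ z = 1 → ∃ L : List G,
        (∀ t ∈ L, t ∈ T) ∧ L.length ≤ C * (l.len z + 1) ∧ z = L.prod := by
  classical
  obtain ⟨K1, h1, -, -, h2⟩ := D.cen_exists_K1
  obtain ⟨L, h3, h4⟩ := h.undist l
  refine ⟨⟨K1, h1, fun x hx => ?_⟩, L.toFinset, L.length * 2, by simpa using h3, fun z hz => ?_⟩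
  · obtain ⟨z, hz, y, hy, e⟩ := h2 x hx
    exact ⟨z, y, hz, hy, e⟩
  · obtain ⟨m, hm, e⟩ := h4 z hz
    obtain ⟨W, w1, w2, w3⟩ := Cen.exists_word L m hm
    refine ⟨W, by simpa using w1, w2.trans ?_, e.trans w3⟩
    rw [mul_assoc]
    exact Nat.mul_le_mul_left _ (by omega)

omit [IsTopologicalGroup G] in
/-- The polar decomposition from the Cartan decomposition. -/
theorem Std.cenPolar_of_kak (D : Std G n k)
    (hkak : ∀ g, ∃ k₁ ∈ D.K, ∃ k₂ ∈ D.K, ∃ s, g = k₁ * D.a s * k₂)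
    (hconj : ∀ x : G, ∀ X ∈ D.g, x * D.ex X * x⁻¹ = D.ex (D.Ad x X)) : D.CenPolar := by
  intro g
  obtain ⟨k₁, h1, k₂, h2, s, rfl⟩ := hkak g
  refine ⟨k₁ * k₂, D.K.mul_mem h1 h2, D.Ad k₂⁻¹ (D.dg s), D.Ad_mem _ (D.dg_mem s), ?_, ?_⟩
  · have e : D.ρ k₂⁻¹ = (D.ρ k₂).transpose := by
      rw [← mul_one (D.ρ k₂⁻¹), ← D.mem_K.mp h2, ← mul_assoc, D.cen_rho_inv_mul, one_mul]
    rw [ExpData.Ad_apply, inv_inv, e, Matrix.IsSymm, Matrix.transpose_mul, Matrix.transpose_mul,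
      Matrix.transpose_transpose, D.dg_apply, Matrix.diagonal_transpose, mul_assoc]
  · rw [← hconj _ _ (D.dg_mem s), Std.a]
    group

end Pool.Agent.P.MP_d483fb_an.Z
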